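import Mathlib

/-!
Square colourings (MP_115f12_co): definitions and the exact statements of the independent pieces of
the positive answer for every class of graphs with an excluded complete minor.
-/

set_option autoImplicit false

open Finset

namespace Pool.Agent.R489.SQ

/-! ### Graph notions -/

/-- `H` is a minor of `G`: there are pairwise disjoint connected branch sets in `G`, one for every
vertex of `H`, such that adjacent vertices of `H` have adjacent branch sets. -/
def IsMinor {W V : Type} (H : SimpleGraph W) (G : SimpleGraph V) : Prop :=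
  ∃ B : W → Set V, (∀ i, (G.induce (B i)).Connected) ∧ (∀ i j, i ≠ j → Disjoint (B i) (B j)) ∧
    ∀ i j, H.Adj i j → ∃ x ∈ B i, ∃ y ∈ B j, G.Adj x y

/-- `φ` is a square colouring with `c` colours: it is proper and around every vertex every colour
occurs a perfect square number of times (possibly `0`) among the neighbours. -/
def IsSquareColouring {V : Type} (G : SimpleGraph V) (c : ℕ) (φ : V → Fin c) : Prop :=
  (∀ u w, G.Adj u w → φ u ≠ φ w) ∧ ∀ (v : V) (i : Fin c), IsSquare {w | G.Adj v w ∧ φ w = i}.ncard

/-- `u` is weakly `r`-reachable from `v` with respect to the rank function `ρ`: some walk of length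
at most `r` from `v` to `u` only uses vertices of rank at least the rank of `u`. -/
def WR {V : Type} (G : SimpleGraph V) (ρ : V → ℕ) (r : ℕ) (v u : V) : Prop :=
  ∃ p : G.Walk v u, p.length ≤ r ∧ ∀ x ∈ p.support, ρ u ≤ ρ x

/-- SQ-W1 (chordal partition): the vertices of a graph without a complete minor on `t` vertices can be
split into parts numbered by natural numbers, every part `j` has a set `B j` of at most `t` earlier
parts, a walk which starts in part `j` and leaves the parts `≥ j` for the first time at `y` has the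
part of `y` in `B j`, and from every vertex at most `t * (2 * r + 1)` vertices of part `j` can be
reached by walks of length at most `r` inside the parts `≥ j`. -/
def StmtW1 : Prop := ∀ (t : ℕ) (V : Type) [Finite V] (G : SimpleGraph V),
  ¬ IsMinor (⊤ : SimpleGraph (Fin t)) G →
    ∃ (part : V → ℕ) (B : ℕ → Finset ℕ), (∀ j, (B j).card ≤ t) ∧
      (∀ (x z y : V) (p : G.Walk x z), (∀ w ∈ p.support, part x ≤ part w) → G.Adj z y →
        part y < part x → part y ∈ B (part x)) ∧
      ∀ (r j : ℕ) (v : V), {u | part u = j ∧ ∃ p : G.Walk v u, p.length ≤ r ∧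
        ∀ w ∈ p.support, j ≤ part w}.ncard ≤ t * (2 * r + 1)

/-- SQ-W2: bounded weak colouring numbers. -/
def StmtW2 : Prop := StmtW1 → ∀ t r : ℕ, ∃ K : ℕ, ∀ (V : Type) [Finite V] (G : SimpleGraph V),
  ¬ IsMinor (⊤ : SimpleGraph (Fin t)) G →
    ∃ (ρ : V → ℕ) (f : V → Fin K), Function.Injective ρ ∧
      ∀ u v, u ≠ v → WR G ρ r v u → f u ≠ f v

/-! ### Nested families -/

/-- A laminar family of subsets of `X` such that every element lies in at most `k` members. -/
structure Lam {α : Type} (k : ℕ) (X : Finset α) (L : Finset (Finset α)) : Prop where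
  sub : ∀ S ∈ L, S ⊆ X
  lam : ∀ S ∈ L, ∀ S' ∈ L, S ⊆ S' ∨ S' ⊆ S ∨ Disjoint S S'
  depth : ∀ x ∈ X, {S : Finset α | S ∈ L ∧ x ∈ S}.ncard ≤ k

/-- SQ-N1 (number theory): `d` capacities `c i ≥ 1`, and a target `n`. If `n` is a square and
`7 * n ≤ ∑ c i`, then `n` is a sum of squares `y i ^ 2 ≤ c i`. -/
def StmtN1 : Prop := ∀ (ι : Type) (I : Finset ι) (c : ι → ℕ) (n : ℕ), (∀ i ∈ I, 1 ≤ c i) →
  IsSquare n → 7 * n ≤ ∑ i ∈ I, c i →
    ∃ y : ι → ℕ, (∀ i ∈ I, y i ^ 2 ≤ c i) ∧ ∑ i ∈ I, y i ^ 2 = n

/-- SQ-N2 (targets): there is a constant `E k` such that every laminar family of depth at most `k` on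
a set of `N ≥ 1` points admits, for every square `n ≤ max 1 (N / E k)`, a set of `n` points of `X`
which meets every member of the family in a square number of points. -/
def StmtN2 : Prop := StmtN1 → ∀ k : ℕ, ∃ E : ℕ, 1 ≤ E ∧ ∀ (α : Type) (X : Finset α)
  (L : Finset (Finset α)) (n : ℕ), Lam k X L → X.Nonempty → IsSquare n →
    n ≤ max 1 (X.card / E) → ∃ Y : Finset α, Y ⊆ X ∧ Y.card = n ∧
      ∀ S ∈ L, IsSquare {x | x ∈ S ∧ x ∈ Y}.ncard

/-- SQ-N (nested families): for every `k` there is `m` such that every laminar family of depth at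
most `k` on a finite set `X` has a colouring with `m` colours such that every member, and `X`,
contain a square number of elements of every colour. -/
def StmtN : Prop := ∀ k : ℕ, ∃ m : ℕ, ∀ (α : Type) (X : Finset α) (L : Finset (Finset α)),
  Lam k X L → ∃ g : α → Fin m, (∀ S ∈ L, ∀ i, IsSquare {x | x ∈ S ∧ g x = i}.ncard) ∧
    ∀ i, IsSquare {x | x ∈ X ∧ g x = i}.ncard

/-- Final statement: for every `t` there is `c` such that every finite graph without a complete minor
on `t` vertices has a square colouring with `c` colours. -/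
def StmtFinal : Prop := ∀ t : ℕ, ∃ c : ℕ, ∀ (V : Type) [Finite V] (G : SimpleGraph V),
  ¬ IsMinor (⊤ : SimpleGraph (Fin t)) G → ∃ φ : V → Fin c, IsSquareColouring G c φ

end Pool.Agent.R489.SQ
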