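import Mathlib

/-! The arithmetic of the main step of the nested square colouring theorem. -/

set_option autoImplicit false

open Finset

namespace Pool.Agent.R489.SQ

/-! ### Small lemmas -/

theorem four_sq_range (μ D δ : ℕ) (hμ : 1 ≤ μ) (hδ : δ ≤ D * μ) :
    ∃ y : Fin (3 * D + 4) → ℕ, (∀ i, y i ^ 2 ≤ μ) ∧ ∑ i, y i ^ 2 = δ := by
  set s := Nat.sqrt μ with hs
  have hs1 : 1 ≤ s := by
    rw [hs, Nat.le_sqrt]
    omega
  have hs2 : s ^ 2 ≤ μ := Nat.sqrt_le' μ
  have hs3 : μ < (s + 1) ^ 2 := Nat.lt_succ_sqrt' μ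
  have hs4 : μ ≤ 3 * s ^ 2 := by nlinarith
  have hspos : 0 < s ^ 2 := by positivity
  set q := δ / s ^ 2 with hq
  have hq1 : q ≤ 3 * D := by
    rw [hq]
    apply Nat.div_le_of_le_mul
    calc δ ≤ D * μ := hδ
      _ ≤ D * (3 * s ^ 2) := Nat.mul_le_mul_left _ hs4
      _ = s ^ 2 * (3 * D) := by ring
  have hdm := Nat.div_add_mod δ (s ^ 2)
  have hmod := Nat.mod_lt δ hspos
  obtain ⟨a, b, c, d, habcd⟩ := Nat.sum_four_squares (δ % s ^ 2)
  let Y : ℕ → ℕ := fun i => if i < q then s else if i = 3 * D then a else if i = 3 * D + 1 then b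
    else if i = 3 * D + 2 then c else if i = 3 * D + 3 then d else 0
  have hY : ∀ i, Y i ^ 2 ≤ μ := by
    intro i
    show (if i < q then s else if i = 3 * D then a else if i = 3 * D + 1 then b
    else if i = 3 * D + 2 then c else if i = 3 * D + 3 then d else 0) ^ 2 ≤ μ
    split_ifs
    · exact hs2
    · nlinarith [sq_nonneg b, sq_nonneg c, sq_nonneg d]
    · nlinarith [sq_nonneg a, sq_nonneg c, sq_nonneg d]
    · nlinarith [sq_nonneg b, sq_nonneg a, sq_nonneg d]
    · nlinarith [sq_nonneg b, sq_nonneg c, sq_nonneg a]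
    · simp
  refine ⟨fun i => Y i.val, fun i => hY i.val, ?_⟩
  rw [← Finset.sum_range (fun i => Y i ^ 2)]
  rw [Finset.sum_range_succ, Finset.sum_range_succ, Finset.sum_range_succ, Finset.sum_range_succ]
  have h0 : Y (3 * D) = a := by
    show (if 3 * D < q then s else if 3 * D = 3 * D then a else _) = a
    rw [if_neg (by omega), if_pos rfl]
  have h1 : Y (3 * D + 1) = b := by
    show (if 3 * D + 1 < q then s else if 3 * D + 1 = 3 * D then a else
      if 3 * D + 1 = 3 * D + 1 then b else _) = b
    rw [if_neg (by omega), if_neg (by omega), if_pos rfl]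
  have h2 : Y (3 * D + 2) = c := by
    show (if 3 * D + 2 < q then s else if 3 * D + 2 = 3 * D then a else
      if 3 * D + 2 = 3 * D + 1 then b else if 3 * D + 2 = 3 * D + 2 then c else _) = c
    rw [if_neg (by omega), if_neg (by omega), if_neg (by omega), if_pos rfl]
  have h3 : Y (3 * D + 3) = d := by
    show (if 3 * D + 3 < q then s else if 3 * D + 3 = 3 * D then a else
      if 3 * D + 3 = 3 * D + 1 then b else if 3 * D + 3 = 3 * D + 2 then c else
      if 3 * D + 3 = 3 * D + 3 then d else 0) = d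
    rw [if_neg (by omega), if_neg (by omega), if_neg (by omega), if_neg (by omega), if_pos rfl]
  rw [h0, h1, h2, h3]
  have h4 : ∑ i ∈ range (3 * D), Y i ^ 2 = q * s ^ 2 := by
    have h5 : ∀ i ∈ range (3 * D), Y i ^ 2 = if i < q then s ^ 2 else 0 := by
      intro i hi
      rw [mem_range] at hi
      show (if i < q then s else if i = 3 * D then a else if i = 3 * D + 1 then b
        else if i = 3 * D + 2 then c else if i = 3 * D + 3 then d else 0) ^ 2 = _
      by_cases hiq : i < q
      · rw [if_pos hiq, if_pos hiq]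
      · rw [if_neg hiq, if_neg hiq, if_neg (by omega), if_neg (by omega), if_neg (by omega),
          if_neg (by omega)]
        rfl
    rw [Finset.sum_congr rfl h5, ← Finset.sum_filter]
    have h6 : (range (3 * D)).filter (fun i => i < q) = range q := by
      ext i
      simp only [mem_filter, mem_range]
      omega
    rw [h6, Finset.sum_const, card_range, smul_eq_mul]
  rw [h4]
  have h7 : q * s ^ 2 + δ % s ^ 2 = δ := by
    rw [hq, mul_comm]
    exact hdm
  omega

theorem exists_top {ι : Type} (C : Finset ι) (N : ι → ℕ) (r : ℕ) (hr : r ≤ C.card) :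
    ∃ A ⊆ C, A.card = r ∧ ∀ a ∈ A, ∀ b ∈ C, b ∉ A → N b ≤ N a := by
  classical
  induction r with
  | zero => exact ⟨∅, empty_subset _, card_empty, fun a ha => absurd ha (notMem_empty a)⟩
  | succ r ih =>
    obtain ⟨A, hA, hcard, hmax⟩ := ih (by omega)
    have hne : (C \ A).Nonempty := by
      rw [← card_pos, card_sdiff_of_subset hA]
      omega
    obtain ⟨c, hc, hcm⟩ := exists_max_image (C \ A) N hne
    rw [mem_sdiff] at hc
    refine ⟨insert c A, insert_subset hc.1 hA, ?_, ?_⟩
    · rw [card_insert_of_notMem hc.2, hcard]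
    · intro a ha b hb hbA
      rw [mem_insert, not_or] at hbA
      rcases mem_insert.mp ha with h | h
      · rw [h]
        exact hcm b (mem_sdiff.mpr ⟨hb, hbA.2⟩)
      · exact hmax a h b hb hbA.2

theorem exists_assign {ι Q : Type} [Fintype Q] [DecidableEq Q] [Nonempty Q] (B : Finset ι) :
    ∀ d : Q → ℕ, ∑ q, d q = B.card → ∃ t : ι → Q, ∀ q, (B.filter fun c => t c = q).card = d q := by
  classical
  induction B using Finset.induction_on with
  | empty =>
    intro d hd
    refine ⟨fun _ => Classical.arbitrary Q, fun q => ?_⟩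
    rw [card_empty, sum_eq_zero_iff] at hd
    rw [filter_empty, card_empty, hd q (mem_univ q)]
  | insert b B hb ih =>
    intro d hd
    rw [card_insert_of_notMem hb] at hd
    have : ∃ q, 0 < d q := by
      by_contra hcon
      push Not at hcon
      have : ∑ q, d q = 0 := sum_eq_zero fun q _ => Nat.le_zero.mp (hcon q)
      omega
    obtain ⟨q0, hq0⟩ := this
    have hsum : ∑ q, Function.update d q0 (d q0 - 1) q = B.card := by
      have h1 : ∑ q, d q = d q0 + ∑ q ∈ univ.erase q0, d q := by
        rw [add_comm, sum_erase_add _ _ (mem_univ q0)]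
      have h2 : ∑ q, Function.update d q0 (d q0 - 1) q =
          (d q0 - 1) + ∑ q ∈ univ.erase q0, d q := by
        rw [add_comm, ← sum_erase_add _ _ (mem_univ q0), Function.update_self]
        congr 1
        apply sum_congr rfl
        intro q hq
        rw [Function.update_of_ne (ne_of_mem_erase hq)]
      omega
    obtain ⟨t, ht⟩ := ih _ hsum
    refine ⟨Function.update t b q0, fun q => ?_⟩
    have h3 : (B.filter fun c => Function.update t b q0 c = q) = B.filter fun c => t c = q := by
      apply filter_congr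
      intro c hc
      rw [Function.update_of_ne (ne_of_mem_of_not_mem hc hb)]
    rw [filter_insert, Function.update_self, h3]
    by_cases hq : q0 = q
    · rw [if_pos hq, card_insert_of_notMem (by simp [hb]), ht q, ← hq, Function.update_self]
      omega
    · rw [if_neg hq, ht q, Function.update_of_ne (Ne.symm hq)]

/-- The distance to the next square. -/
theorem exists_gap (T : ℕ) : ∃ δ, IsSquare (T + δ) ∧ δ ≤ 2 * Nat.sqrt T := by
  set s := Nat.sqrt T with hs
  have hs2 : s ^ 2 ≤ T := Nat.sqrt_le' T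
  have hs3 : T < (s + 1) ^ 2 := Nat.lt_succ_sqrt' T
  rcases Nat.eq_or_lt_of_le hs2 with h | h
  · exact ⟨0, ⟨s, by rw [add_zero, ← h]; ring⟩, Nat.zero_le _⟩
  · refine ⟨(s + 1) ^ 2 - T, ⟨s + 1, ?_⟩, ?_⟩
    · rw [Nat.add_sub_cancel' hs3.le]
      ring
    · have : (s + 1) ^ 2 = s ^ 2 + 2 * s + 1 := by ring
      omega

/-- Palette. -/
abbrev Pal (m R : ℕ) : Type := ((Fin m × Fin R) × Fin m) ⊕ (Fin 2 × Fin m) ⊕ (Fin 2 × Fin 4)

/-- Number of correctors per colour. -/
abbrev RR (m E : ℕ) : ℕ := 3 * (4 * (4 * m + 1) * E) + 4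

/-- An index function for the correctors. -/
theorem exists_index {ι : Type} (A : Finset ι) (m R : ℕ) (hm : 1 ≤ m) (hR : 1 ≤ R)
    (hA : A.card ≤ m * R) : ∃ a : ι → Fin m × Fin R, Set.InjOn a A ∧
      (A.card = m * R → ∀ G : Fin m × Fin R → ℕ, ∑ c ∈ A, G (a c) = ∑ q, G q) := by
  classical
  have : Nonempty (Fin m) := ⟨⟨0, hm⟩⟩
  have : Nonempty (Fin R) := ⟨⟨0, hR⟩⟩
  have hc : Fintype.card A ≤ Fintype.card (Fin m × Fin R) := by
    rw [Fintype.card_coe, Fintype.card_prod, Fintype.card_fin, Fintype.card_fin]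
    exact hA
  obtain ⟨e⟩ := Function.Embedding.nonempty_of_card_le hc
  let a : ι → Fin m × Fin R := fun c => if h : c ∈ A then e ⟨c, h⟩ else Classical.arbitrary _
  have ha : ∀ c (h : c ∈ A), a c = e ⟨c, h⟩ := fun c h => dif_pos h
  have hinj : Set.InjOn a A := by
    intro c hc c' hc' h
    rw [ha c hc, ha c' hc'] at h
    exact congrArg Subtype.val (e.injective h)
  refine ⟨a, hinj, fun hcard G => ?_⟩
  have himg : A.image a = univ := by
    apply Finset.eq_univ_of_card
    rw [card_image_of_injOn hinj, hcard, Fintype.card_prod, Fintype.card_fin, Fintype.card_fin]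
  rw [← himg, sum_image hinj]

end Pool.Agent.R489.SQ
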