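import Pool.Agent.R489.SQ.Arith

/-! The arithmetic of the main step of the nested square colouring theorem, second part. -/

set_option autoImplicit false

open Finset

namespace Pool.Agent.R489.SQ

/-- The other element. -/
def oth (b : Fin 2) : Fin 2 := if b = 0 then 1 else 0

theorem oth_oth (b : Fin 2) : oth (oth b) = b := by fin_cases b <;> rfl

theorem oth_ne (b : Fin 2) : oth b ≠ b := by fin_cases b <;> decide

section

variable {ι : Type} {m R : ℕ}

/-- Contribution of a child to a colour. -/
noncomputable def contrib (pal : ι → Fin m → Pal m R) (t : ι → Pal m R) (n : ι → Fin m → ℕ)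
    (y : ι → ℕ) (c : ι) (p : Pal m R) : ℕ :=
  (∑ i, if pal c i = p then n c i else 0) + if t c = p then y c else 0

theorem isSquare_single (A : Finset ι) (a : ι → Fin m × Fin R) (ha : Set.InjOn a A)
    (q : Fin m × Fin R) (F : ι → ℕ) (hF : ∀ c ∈ A, IsSquare (F c)) :
    IsSquare (∑ c ∈ A, if a c = q then F c else 0) := by
  classical
  by_cases h : ∃ c ∈ A, a c = q
  · obtain ⟨c, hc, hcq⟩ := h
    rw [sum_eq_single c]
    · rw [if_pos hcq]
      exact hF c hc
    · intro c' hc' hne
      rw [if_neg]
      intro h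
      exact hne (ha hc' hc (h.trans hcq.symm))
    · intro h
      exact absurd hc h
  · push Not at h
    rw [sum_eq_zero]
    · exact ⟨0, rfl⟩
    · intro c hc
      rw [if_neg (h c hc)]

open Classical in
theorem totals (C A : Finset ι) (hAC : A ⊆ C) (a : ι → Fin m × Fin R) (ha : Set.InjOn a A)
    (b : ι → Fin 2) (y : ι → ℕ) (n : ι → Fin m → ℕ)
    (t' : ι → (Fin 2 × Fin m) ⊕ (Fin 2 × Fin 4))
    (hn : ∀ c ∈ A, ∀ i, IsSquare (n c i))
    (h3 : ∀ β j, IsSquare (∑ c ∈ C \ A, (if b c = β then n c j else 0) +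
      ∑ c ∈ C, if t' c = Sum.inl (β, j) then y c else 0))
    (h4 : ∀ z, IsSquare (∑ c ∈ C, if t' c = Sum.inr z then y c else 0)) (p : Pal m R) :
    IsSquare (∑ c ∈ C, contrib
      (fun c i => if c ∈ A then Sum.inl (a c, i) else Sum.inr (Sum.inl (b c, i)))
      (fun c => Sum.inr (t' c)) n y c p) := by
  have hsplit : ∀ F : ι → ℕ, ∑ c ∈ C, F c = ∑ c ∈ C \ A, F c + ∑ c ∈ A, F c := fun F =>
    (sum_sdiff hAC).symm
  rcases p with ⟨q, i⟩ | ⟨β, j⟩ | z
  · rw [hsplit]
    have e1 : ∑ c ∈ C \ A, contrib
        (fun c i => if c ∈ A then Sum.inl (a c, i) else Sum.inr (Sum.inl (b c, i)))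
        (fun c => Sum.inr (t' c)) n y c (Sum.inl (q, i)) = 0 := by
      apply sum_eq_zero
      intro c hc
      rw [mem_sdiff] at hc
      simp [contrib, hc.2]
    have e2 : ∑ c ∈ A, contrib
        (fun c i => if c ∈ A then Sum.inl (a c, i) else Sum.inr (Sum.inl (b c, i)))
        (fun c => Sum.inr (t' c)) n y c (Sum.inl (q, i)) =
        ∑ c ∈ A, if a c = q then n c i else 0 := by
      apply sum_congr rfl
      intro c hc
      simp only [contrib, hc, if_true, Sum.inl.injEq, Prod.mk.injEq, reduceCtorEq, if_false,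
        add_zero]
      by_cases hq : a c = q
      · simp [hq]
      · simp [hq]
    rw [e1, e2, zero_add]
    exact isSquare_single A a ha q (fun c => n c i) fun c hc => hn c hc i
  · have e : ∑ c ∈ C, contrib
        (fun c i => if c ∈ A then Sum.inl (a c, i) else Sum.inr (Sum.inl (b c, i)))
        (fun c => Sum.inr (t' c)) n y c (Sum.inr (Sum.inl (β, j))) =
        ∑ c ∈ C \ A, (if b c = β then n c j else 0) +
          ∑ c ∈ C, if t' c = Sum.inl (β, j) then y c else 0 := by
      have e0 : ∀ c, contrib
          (fun c i => if c ∈ A then Sum.inl (a c, i) else Sum.inr (Sum.inl (b c, i)))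
          (fun c => Sum.inr (t' c)) n y c (Sum.inr (Sum.inl (β, j))) =
          (if c ∈ A then 0 else if b c = β then n c j else 0) +
          if t' c = Sum.inl (β, j) then y c else 0 := by
        intro c
        unfold contrib
        congr 1
        · by_cases hc : c ∈ A
          · simp [hc]
          · simp only [hc, if_false, Sum.inr.injEq, Sum.inl.injEq, Prod.mk.injEq]
            by_cases hb : b c = β
            · simp [hb]
            · simp [hb]
        · simp
      rw [sum_congr rfl fun c _ => e0 c, sum_add_distrib]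
      congr 1
      rw [hsplit]
      have e1 : ∑ c ∈ A, (if c ∈ A then 0 else if b c = β then n c j else 0) = 0 := by
        apply sum_eq_zero
        intro c hc
        rw [if_pos hc]
      rw [e1, add_zero]
      apply sum_congr rfl
      intro c hc
      rw [mem_sdiff] at hc
      rw [if_neg hc.2]
    rw [e]
    exact h3 β j
  · have e : ∑ c ∈ C, contrib
        (fun c i => if c ∈ A then Sum.inl (a c, i) else Sum.inr (Sum.inl (b c, i)))
        (fun c => Sum.inr (t' c)) n y c (Sum.inr (Sum.inr z)) =
        ∑ c ∈ C, if t' c = Sum.inr z then y c else 0 := by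
      apply sum_congr rfl
      intro c _
      unfold contrib
      have : (∑ i, if (if c ∈ A then (Sum.inl (a c, i) : Pal m R)
          else Sum.inr (Sum.inl (b c, i))) = Sum.inr (Sum.inr z) then n c i else 0) = 0 := by
        apply sum_eq_zero
        intro i _
        by_cases hc : c ∈ A <;> simp [hc]
      rw [this, zero_add]
      simp
    rw [e]
    exact h4 z

end

/-- The arithmetic of the main step. -/
theorem arith (m E : ℕ) (hm : 1 ≤ m) (hE : 1 ≤ E) (ι : Type) (C : Finset ι) (N : ι → ℕ)
    (Pos : ι → ℕ → (Fin m → ℕ) → Prop) (hN : ∀ c ∈ C, 1 ≤ N c)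
    (hPos : ∀ c ∈ C, ∀ y, IsSquare y → y ≤ max 1 (N c / E) → ∃ n, Pos c y n)
    (hsq : ∀ c ∈ C, ∀ y n, Pos c y n → (∀ i, IsSquare (n i)) ∧ y + ∑ i, n i = N c) :
    ∃ (pal : ι → Fin m → Pal m (RR m E)) (t : ι → Pal m (RR m E)) (n : ι → Fin m → ℕ) (y : ι → ℕ),
      (∀ c ∈ C, Pos c (y c) (n c)) ∧ (∀ c ∈ C, Function.Injective (pal c)) ∧
      (∀ c ∈ C, ∀ i, pal c i ≠ t c) ∧ ∀ p, IsSquare (∑ c ∈ C, contrib pal t n y c p) := by
  classical
  set R := RR m E with hR
  have hR1 : 1 ≤ R := by rw [hR]; simp [RR]
  -- the correctors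
  have hA : ∃ A ⊆ C, (A = C ∧ A.card ≤ m * R) ∨ (A.card = m * R ∧
      ∀ a ∈ A, ∀ b ∈ C, b ∉ A → N b ≤ N a) := by
    by_cases h : C.card ≤ m * R
    · exact ⟨C, Subset.refl _, Or.inl ⟨rfl, h⟩⟩
    · obtain ⟨A, h1, h2, h3⟩ := exists_top C N (m * R) (by omega)
      exact ⟨A, h1, Or.inr ⟨h2, h3⟩⟩
  obtain ⟨A, hAC, hA⟩ := hA
  have hAcard : A.card ≤ m * R := by
    rcases hA with h | h
    · exact h.2
    · exact h.1.le
  obtain ⟨a, ha, hasum⟩ := exists_index A m R hm hR1 hAcard
  -- reduction to the totals
  have key : (∃ (b : ι → Fin 2) (y : ι → ℕ) (n : ι → Fin m → ℕ)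
      (t' : ι → (Fin 2 × Fin m) ⊕ (Fin 2 × Fin 4)), (∀ c ∈ C, Pos c (y c) (n c)) ∧
      (∀ c ∈ C, c ∉ A → ∀ j, t' c ≠ Sum.inl (b c, j)) ∧
      (∀ β j, IsSquare (∑ c ∈ C \ A, (if b c = β then n c j else 0) +
        ∑ c ∈ C, if t' c = Sum.inl (β, j) then y c else 0)) ∧
      ∀ z, IsSquare (∑ c ∈ C, if t' c = Sum.inr z then y c else 0)) →
      ∃ (pal : ι → Fin m → Pal m R) (t : ι → Pal m R) (n : ι → Fin m → ℕ) (y : ι → ℕ),
      (∀ c ∈ C, Pos c (y c) (n c)) ∧ (∀ c ∈ C, Function.Injective (pal c)) ∧
      (∀ c ∈ C, ∀ i, pal c i ≠ t c) ∧ ∀ p, IsSquare (∑ c ∈ C, contrib pal t n y c p) := by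
    rintro ⟨b, y, n, t', k1, k2, k3, k4⟩
    refine ⟨fun c i => if c ∈ A then Sum.inl (a c, i) else Sum.inr (Sum.inl (b c, i)),
      fun c => Sum.inr (t' c), n, y, k1, ?_, ?_, ?_⟩
    · intro c _ i j hij
      simp only at hij
      by_cases hcA : c ∈ A
      · simp only [hcA, if_true, Sum.inl.injEq, Prod.mk.injEq, true_and] at hij
        exact hij
      · simp only [hcA, if_false, Sum.inr.injEq, Sum.inl.injEq, Prod.mk.injEq, true_and] at hij
        exact hij
    · intro c hc i hi
      simp only at hi
      by_cases hcA : c ∈ A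
      · simp [hcA] at hi
      · simp only [hcA, if_false, Sum.inr.injEq] at hi
        exact k2 c hc hcA i hi.symm
    · intro p
      exact totals C A hAC a ha b y n t'
        (fun c hc => (hsq c (hAC hc) _ _ (k1 c (hAC hc))).1) k3 k4 p
  apply key
  have hP0 : ∀ c ∈ C, ∃ n, Pos c 0 n := fun c hc => hPos c hc 0 ⟨0, rfl⟩ (Nat.zero_le _)
  have hP0' : ∀ c, ∃ n, c ∈ C → Pos c 0 n := by
    intro c
    by_cases hc : c ∈ C
    · obtain ⟨n, hn⟩ := hP0 c hc
      exact ⟨n, fun _ => hn⟩
    · exact ⟨fun _ => 0, fun h => absurd h hc⟩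
  choose n0 hn0 using hP0'
  by_cases hAeq : A = C
  · -- few children
    refine ⟨fun _ => 0, fun _ => 0, n0, fun _ => Sum.inr (0, 0), hn0, ?_, ?_, ?_⟩
    · intro c _ _ j h
      cases h
    · intro β j
      rw [hAeq, sdiff_self]
      simp
    · intro z
      simp
  have hA2 : A.card = m * R ∧ ∀ a ∈ A, ∀ b ∈ C, b ∉ A → N b ≤ N a := by
    rcases hA with h | h
    · exact absurd h.1 hAeq
    · exact h
  obtain ⟨hAc, hAtop⟩ := hA2
  have hAne : A.Nonempty := by
    rw [← card_pos, hAc]
    exact Nat.mul_pos hm hR1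
  obtain ⟨a0, ha0, hmin⟩ := exists_min_image A N hAne
  set ν := N a0 with hν
  have hν1 : 1 ≤ ν := hN a0 (hAC ha0)
  set M := ∑ c ∈ C \ A, N c with hM
  set K := 4 * m + 1 with hK
  have hsmall : ∀ c ∈ C \ A, N c ≤ ν := by
    intro c hc
    rw [mem_sdiff] at hc
    exact hAtop a0 ha0 c hc.1 hc.2
  by_cases hcase : M ≤ (K * ν) ^ 2
  · -- case (i)
    set T : Fin m → ℕ := fun j => ∑ c ∈ C \ A, n0 c j with hT
    have hTM : ∀ j, T j ≤ M := by
      intro j
      apply sum_le_sum
      intro c hc
      have hcC := (mem_sdiff.mp hc).1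
      have h1 := (hsq c hcC 0 _ (hn0 c hcC)).2
      rw [zero_add] at h1
      rw [← h1]
      exact single_le_sum (f := n0 c) (fun _ _ => Nat.zero_le _) (mem_univ j)
    choose δ hδ1 hδ2 using fun j => exists_gap (T j)
    set μ := max 1 (ν / E) with hμ
    have hμ1 : 1 ≤ μ := le_max_left _ _
    have hνμ : ν ≤ 2 * E * μ := by
      have h1 : ν < E * (ν / E + 1) := Nat.lt_mul_div_succ ν hE
      have h2 : ν / E ≤ μ := le_max_right _ _
      nlinarith
    have hδμ : ∀ j, δ j ≤ (4 * (4 * m + 1) * E) * μ := by
      intro j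
      have h1 : Nat.sqrt (T j) ≤ K * ν := by
        calc Nat.sqrt (T j) ≤ Nat.sqrt ((K * ν) ^ 2) :=
              Nat.sqrt_le_sqrt ((hTM j).trans hcase)
          _ = K * ν := Nat.sqrt_eq' _
      calc δ j ≤ 2 * Nat.sqrt (T j) := hδ2 j
        _ ≤ 2 * (K * ν) := by omega
        _ ≤ 2 * (K * (2 * E * μ)) := by gcongr
        _ = (4 * (4 * m + 1) * E) * μ := by rw [hK]; ring
    choose Y hY1 hY2 using fun j => four_sq_range μ (4 * (4 * m + 1) * E) (δ j) hμ1 (hδμ j)
    have hyP : ∀ c ∈ A, ∃ n, Pos c (Y (a c).1 (a c).2 ^ 2) n := by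
      intro c hc
      apply hPos c (hAC hc)
      · exact ⟨_, pow_two _⟩
      · refine (hY1 _ _).trans ?_
        rw [hμ]
        exact max_le_max le_rfl (Nat.div_le_div_right (hmin c hc))
    have hyP' : ∀ c, ∃ n, (c ∈ A → Pos c (Y (a c).1 (a c).2 ^ 2) n) ∧ (c ∉ A → n = n0 c) := by
      intro c
      by_cases hc : c ∈ A
      · obtain ⟨n, hn⟩ := hyP c hc
        exact ⟨n, fun _ => hn, fun h => absurd hc h⟩
      · exact ⟨n0 c, fun h => absurd h hc, fun _ => rfl⟩
    choose n hn1 hn2 using hyP'
    refine ⟨fun _ => 0, fun c => if c ∈ A then Y (a c).1 (a c).2 ^ 2 else 0, n,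
      fun c => if c ∈ A then Sum.inl (0, (a c).1) else Sum.inr (0, 0), ?_, ?_, ?_, ?_⟩
    · intro c hc
      by_cases hcA : c ∈ A
      · simp only [hcA, if_true]
        exact hn1 c hcA
      · simp only [hcA, if_false]
        rw [hn2 c hcA]
        exact hn0 c hc
    · intro c _ hcA j h
      simp only [hcA, if_false] at h
      cases h
    · intro β j
      by_cases hβ : β = 0
      · subst hβ
        have e1 : ∑ c ∈ C \ A, (if (0 : Fin 2) = 0 then n c j else 0) = T j := by
          apply sum_congr rfl
          intro c hc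
          rw [if_pos rfl, hn2 c (mem_sdiff.mp hc).2]
        have e2 : ∑ c ∈ C, (if (if c ∈ A then (Sum.inl (0, (a c).1) :
            (Fin 2 × Fin m) ⊕ (Fin 2 × Fin 4)) else Sum.inr (0, 0)) = Sum.inl (0, j)
            then (if c ∈ A then Y (a c).1 (a c).2 ^ 2 else 0) else 0) = δ j := by
          rw [← sum_sdiff hAC]
          have e3 : ∑ c ∈ C \ A, (if (if c ∈ A then (Sum.inl (0, (a c).1) :
            (Fin 2 × Fin m) ⊕ (Fin 2 × Fin 4)) else Sum.inr (0, 0)) = Sum.inl (0, j)
            then (if c ∈ A then Y (a c).1 (a c).2 ^ 2 else 0) else 0) = 0 := by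
            apply sum_eq_zero
            intro c hc
            simp [(mem_sdiff.mp hc).2]
          rw [e3, zero_add]
          have e4 : ∑ c ∈ A, (if (if c ∈ A then (Sum.inl (0, (a c).1) :
            (Fin 2 × Fin m) ⊕ (Fin 2 × Fin 4)) else Sum.inr (0, 0)) = Sum.inl (0, j)
            then (if c ∈ A then Y (a c).1 (a c).2 ^ 2 else 0) else 0) =
            ∑ c ∈ A, (fun q : Fin m × Fin R => if q.1 = j then Y q.1 q.2 ^ 2 else 0) (a c) := by
            apply sum_congr rfl
            intro c hc
            simp [hc]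
          rw [e4]
          refine (hasum hAc (fun q : Fin m × Fin R => if q.1 = j then Y q.1 q.2 ^ 2 else 0)).trans ?_
          rw [Fintype.sum_prod_type, sum_eq_single j]
          · simp only [if_true]
            exact hY2 j
          · intro j' _ hj'
            simp [hj']
          · intro h
            exact absurd (mem_univ j) h
        rw [e1, e2]
        exact hδ1 j
      · have e1 : ∑ c ∈ C \ A, (if (0 : Fin 2) = β then n c j else 0) = 0 := by
          apply sum_eq_zero
          intro c _
          rw [if_neg (Ne.symm hβ)]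
        have e2 : ∑ c ∈ C, (if (if c ∈ A then (Sum.inl (0, (a c).1) :
            (Fin 2 × Fin m) ⊕ (Fin 2 × Fin 4)) else Sum.inr (0, 0)) = Sum.inl (β, j)
            then (if c ∈ A then Y (a c).1 (a c).2 ^ 2 else 0) else 0) = 0 := by
          apply sum_eq_zero
          intro c _
          by_cases hcA : c ∈ A
          · simp [hcA, Ne.symm hβ]
          · simp [hcA]
        rw [e1, e2]
        exact ⟨0, rfl⟩
    · intro z
      have e2 : ∑ c ∈ C, (if (if c ∈ A then (Sum.inl (0, (a c).1) :
          (Fin 2 × Fin m) ⊕ (Fin 2 × Fin 4)) else Sum.inr (0, 0)) = Sum.inr z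
          then (if c ∈ A then Y (a c).1 (a c).2 ^ 2 else 0) else 0) = 0 := by
        apply sum_eq_zero
        intro c _
        by_cases hcA : c ∈ A
        · simp [hcA]
        · simp [hcA]
      rw [e2]
      exact ⟨0, rfl⟩
  · -- case (ii)
    push Not at hcase
    have hP1 : ∀ c, ∃ n, c ∈ C → Pos c 1 n := by
      intro c
      by_cases hc : c ∈ C
      · obtain ⟨n, hn⟩ := hPos c hc 1 ⟨1, rfl⟩ (le_max_left _ _)
        exact ⟨n, fun _ => hn⟩
      · exact ⟨fun _ => 0, fun h => absurd h hc⟩
    choose n1 hn1 using hP1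
    set B := C \ A with hB
    obtain ⟨B1, hB1, hB1c⟩ := exists_subset_card_eq (Nat.div_le_self B.card 2)
    let b : ι → Fin 2 := fun c => if c ∈ B1 then 1 else 0
    have hcardb : ∀ β, B.card / 2 ≤ (B.filter fun c => b c = β).card := by
      intro β
      have h1 : (B.filter fun c => b c = 1) = B1 := by
        ext c
        rw [mem_filter]
        constructor
        · rintro ⟨_, h⟩
          by_contra hcon
          have : b c = 0 := if_neg hcon
          rw [this] at h
          exact absurd h (by decide)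
        · intro h
          exact ⟨hB1 h, if_pos h⟩
      have h0 : (B.filter fun c => b c = 0) = B \ B1 := by
        ext c
        rw [mem_filter, Finset.mem_sdiff (s := B) (t := B1)]
        constructor
        · rintro ⟨hc, h⟩
          refine ⟨hc, fun hcon => ?_⟩
          have : b c = 1 := if_pos hcon
          rw [this] at h
          exact absurd h (by decide)
        · rintro ⟨hc, h⟩
          exact ⟨hc, if_neg h⟩
      fin_cases β
      · change B.card / 2 ≤ (B.filter fun c => b c = 0).card
        rw [h0, card_sdiff_of_subset hB1, hB1c]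
        omega
      · change B.card / 2 ≤ (B.filter fun c => b c = 1).card
        rw [h1, hB1c]
    set T : Fin 2 → Fin m → ℕ := fun β j => ∑ c ∈ B, if b c = β then n1 c j else 0 with hT
    have hTM : ∀ β j, T β j ≤ M := by
      intro β j
      apply sum_le_sum
      intro c hc
      have hcC := (mem_sdiff.mp hc).1
      have h1 := (hsq c hcC 1 _ (hn1 c hcC)).2
      have h2 : n1 c j ≤ ∑ i, n1 c i :=
        single_le_sum (f := n1 c) (fun _ _ => Nat.zero_le _) (mem_univ j)
      split_ifs
      · omega
      · exact Nat.zero_le _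
    choose δ hδ1 hδ2 using fun β => fun j => exists_gap (T β j)
    set σ := Nat.sqrt M with hσ
    have hσ2 : σ ^ 2 ≤ M := Nat.sqrt_le' M
    have hMB : M ≤ B.card * ν := by
      rw [hM]
      calc ∑ c ∈ B, N c ≤ ∑ c ∈ B, ν := sum_le_sum hsmall
        _ = B.card * ν := by rw [sum_const, smul_eq_mul]
    have hBbig : K * σ < B.card := by
      by_contra hcon
      push Not at hcon
      have h1 : M ≤ K * σ * ν := hMB.trans (Nat.mul_le_mul_right _ hcon)
      have h2 : M ^ 2 ≤ (K * ν) ^ 2 * σ ^ 2 := by
        calc M ^ 2 ≤ (K * σ * ν) ^ 2 := Nat.pow_le_pow_left h1 2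
          _ = (K * ν) ^ 2 * σ ^ 2 := by ring
      have h3 : M ^ 2 ≤ (K * ν) ^ 2 * M := h2.trans (Nat.mul_le_mul_left _ hσ2)
      have hMpos : 0 < M := by omega
      have h4 : M * M ≤ (K * ν) ^ 2 * M := by
        calc M * M = M ^ 2 := by ring
          _ ≤ _ := h3
      have h5 := Nat.le_of_mul_le_mul_right h4 hMpos
      omega
    have hδsum : ∀ β, ∑ j, δ β j ≤ B.card / 2 := by
      intro β
      have h1 : ∑ j, δ β j ≤ ∑ j : Fin m, 2 * σ := by
        apply sum_le_sum
        intro j _
        have := Nat.sqrt_le_sqrt (hTM β j)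
        have := hδ2 β j
        omega
      rw [sum_const, card_univ, Fintype.card_fin, smul_eq_mul] at h1
      have h2 : K * σ = 2 * (m * (2 * σ)) + σ := by rw [hK]; ring
      omega
    have hq : ∀ β, ∃ q : Fin 4 → ℕ, ∑ j, δ (oth β) j + ∑ i, q i ^ 2 =
        (B.filter fun c => b c = β).card := by
      intro β
      have h1 := hδsum (oth β)
      have h2 := hcardb β
      obtain ⟨x, y, z, w, h⟩ := Nat.sum_four_squares
        ((B.filter fun c => b c = β).card - ∑ j, δ (oth β) j)
      refine ⟨![x, y, z, w], ?_⟩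
      rw [Fin.sum_univ_four]
      show ∑ j, δ (oth β) j + (x ^ 2 + y ^ 2 + z ^ 2 + w ^ 2) = _
      omega
    choose q hq using hq
    have hassign : ∀ β, ∃ u : ι → Fin m ⊕ Fin 4, ∀ s, ((B.filter fun c => b c = β).filter
        fun c => u c = s).card = Sum.elim (fun j => δ (oth β) j) (fun i => q β i ^ 2) s := by
      intro β
      apply exists_assign
      rw [Fintype.sum_sum_type]
      exact hq β
    choose u hu using hassign
    let t' : ι → (Fin 2 × Fin m) ⊕ (Fin 2 × Fin 4) := fun c => if c ∈ A then Sum.inr (0, 0)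
      else Sum.map (fun j => (oth (b c), j)) (fun i => (b c, i)) (u (b c) c)
    have hn : ∀ c, ∃ n, c ∈ C → Pos c (if c ∈ A then 0 else 1) n ∧ (c ∉ A → n = n1 c) := by
      intro c
      by_cases hcA : c ∈ A
      · refine ⟨n0 c, fun hc => ⟨?_, fun h => absurd hcA h⟩⟩
        rw [if_pos hcA]
        exact hn0 c hc
      · refine ⟨n1 c, fun hc => ⟨?_, fun _ => rfl⟩⟩
        rw [if_neg hcA]
        exact hn1 c hc
    choose n hn using hn
    refine ⟨b, fun c => if c ∈ A then 0 else 1, n, t', fun c hc => (hn c hc).1, ?_, ?_, ?_⟩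
    · intro c _ hcA j h
      have h1 : t' c = Sum.map (fun j => (oth (b c), j)) (fun i => (b c, i)) (u (b c) c) :=
        if_neg hcA
      rw [h1] at h
      rcases hux : u (b c) c with j' | i'
      · rw [hux] at h
        simp only [Sum.map_inl, Sum.inl.injEq, Prod.mk.injEq] at h
        exact oth_ne _ h.1
      · rw [hux] at h
        simp at h
    · intro β j
      have e1 : ∑ c ∈ B, (if b c = β then n c j else 0) = T β j := by
        apply sum_congr rfl
        intro c hc
        rw [mem_sdiff] at hc
        rw [(hn c hc.1).2 hc.2]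
      have e2 : ∑ c ∈ C, (if t' c = Sum.inl (β, j) then (if c ∈ A then 0 else 1) else 0) =
          δ β j := by
        rw [← sum_sdiff hAC]
        have e3 : ∑ c ∈ A, (if t' c = Sum.inl (β, j) then (if c ∈ A then 0 else 1) else 0) =
            0 := by
          apply sum_eq_zero
          intro c hc
          simp [hc]
        rw [e3, add_zero]
        have e4 : ∑ c ∈ C \ A, (if t' c = Sum.inl (β, j) then (if c ∈ A then 0 else 1) else 0) =
            ((B.filter fun c => b c = oth β).filter fun c => u (oth β) c = Sum.inl j).card := by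
          rw [filter_filter, card_filter]
          apply sum_congr rfl
          intro c hc
          have hcA := (mem_sdiff.mp hc).2
          have h1 : t' c = Sum.map (fun j => (oth (b c), j)) (fun i => (b c, i)) (u (b c) c) :=
            if_neg hcA
          rw [if_neg hcA, h1]
          apply if_congr _ rfl rfl
          constructor
          · intro h
            rcases hux : u (b c) c with j' | i'
            · rw [hux] at h
              simp only [Sum.map_inl, Sum.inl.injEq, Prod.mk.injEq] at h
              have hb : b c = oth β := by rw [← h.1, oth_oth]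
              refine ⟨hb, ?_⟩
              rw [← hb, hux, h.2]
            · rw [hux] at h
              simp at h
          · rintro ⟨hb, hux⟩
            rw [hb, hux, oth_oth]
            rfl
        rw [e4, hu, Sum.elim_inl, oth_oth]
      rw [e1, e2]
      exact hδ1 β j
    · rintro ⟨β, i⟩
      have e2 : ∑ c ∈ C, (if t' c = Sum.inr (β, i) then (if c ∈ A then 0 else 1) else 0) =
          q β i ^ 2 := by
        rw [← sum_sdiff hAC]
        have e3 : ∑ c ∈ A, (if t' c = Sum.inr (β, i) then (if c ∈ A then 0 else 1) else 0) =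
            0 := by
          apply sum_eq_zero
          intro c hc
          simp [hc]
        rw [e3, add_zero]
        have e4 : ∑ c ∈ C \ A, (if t' c = Sum.inr (β, i) then (if c ∈ A then 0 else 1) else 0) =
            ((B.filter fun c => b c = β).filter fun c => u β c = Sum.inr i).card := by
          rw [filter_filter, card_filter]
          apply sum_congr rfl
          intro c hc
          have hcA := (mem_sdiff.mp hc).2
          have h1 : t' c = Sum.map (fun j => (oth (b c), j)) (fun i => (b c, i)) (u (b c) c) :=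
            if_neg hcA
          rw [if_neg hcA, h1]
          apply if_congr _ rfl rfl
          constructor
          · intro h
            rcases hux : u (b c) c with j' | i'
            · rw [hux] at h
              simp at h
            · rw [hux] at h
              simp only [Sum.map_inr, Sum.inr.injEq, Prod.mk.injEq] at h
              refine ⟨h.1, ?_⟩
              rw [← h.1, hux, h.2]
          · rintro ⟨hb, hux⟩
            rw [hb, hux]
            rfl
        rw [e4, hu, Sum.elim_inr]
      rw [e2]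
      exact ⟨_, pow_two _⟩

end Pool.Agent.R489.SQ
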