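import Pool.Agent.R489.SQ.Stm

/-! Decomposition of a laminar family into its maximal members. -/

set_option autoImplicit false

open Finset

namespace Pool.Agent.R489.SQ

variable {α : Type}

/-- The children of a laminar family: a partition of `X` into nonempty sets such that the members of
the family strictly inside a child form a laminar family of smaller depth. -/
structure Kids (k : ℕ) (X : Finset α) (L : Finset (Finset α)) (C : Finset (Finset α)) : Prop where
  ne : ∀ c ∈ C, c.Nonempty
  sub : ∀ c ∈ C, c ⊆ X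
  disj : ∀ c ∈ C, ∀ c' ∈ C, c ≠ c' → Disjoint c c'
  cover : ∀ x ∈ X, ∃ c ∈ C, x ∈ c
  lam : ∀ c ∈ C, ∀ L' : Finset (Finset α), (∀ S, S ∈ L' ↔ S ∈ L ∧ S ⊂ c) → Lam k c L'
  mem : ∀ S ∈ L, S.Nonempty → ∃ c ∈ C, S ⊆ c

theorem exists_kids (k : ℕ) (X : Finset α) (L : Finset (Finset α)) (h : Lam (k + 1) X L) :
    ∃ C : Finset (Finset α), Kids k X L C := by
  classical
  let M : α → Finset α := fun x => insert x ((L.filter fun S => x ∈ S).biUnion id)
  have hM : ∀ x ∈ X, (M x ∈ L ∧ x ∈ M x ∧ ∀ S ∈ L, x ∈ S → S ⊆ M x) ∨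
      (M x = {x} ∧ ∀ S ∈ L, x ∉ S) := by
    intro x hx
    by_cases hne : (L.filter fun S => x ∈ S).Nonempty
    · left
      obtain ⟨S0, hS0, hmax⟩ := Finset.exists_max_image (L.filter fun S => x ∈ S) Finset.card hne
      rw [mem_filter] at hS0
      have hall : ∀ S ∈ L, x ∈ S → S ⊆ S0 := by
        intro S hS hxS
        rcases h.lam S hS S0 hS0.1 with h1 | h1 | h1
        · exact h1
        · have h2 := hmax S (mem_filter.mpr ⟨hS, hxS⟩)
          rw [Finset.eq_of_subset_of_card_le h1 h2]
        · exact absurd hS0.2 (Finset.disjoint_left.mp h1 hxS)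
      have hMx : M x = S0 := by
        apply Finset.Subset.antisymm
        · intro y hy
          rcases Finset.mem_insert.mp hy with hy | hy
          · rw [hy]
            exact hS0.2
          · obtain ⟨S, hS, hyS⟩ := Finset.mem_biUnion.mp hy
            rw [mem_filter] at hS
            exact hall S hS.1 hS.2 hyS
        · intro y hy
          exact Finset.mem_insert_of_mem (Finset.mem_biUnion.mpr ⟨S0, mem_filter.mpr hS0, hy⟩)
      rw [hMx]
      exact ⟨hS0.1, hS0.2, hall⟩
    · right
      have he : (L.filter fun S => x ∈ S) = ∅ := Finset.not_nonempty_iff_eq_empty.mp hne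
      constructor
      · show insert x ((L.filter fun S => x ∈ S).biUnion id) = {x}
        rw [he]
        rfl
      · intro S hS hxS
        exact hne ⟨S, mem_filter.mpr ⟨hS, hxS⟩⟩
  have hself : ∀ x, x ∈ M x := fun x => Finset.mem_insert_self _ _
  have hsub : ∀ x ∈ X, M x ⊆ X := by
    intro x hx
    rcases hM x hx with ⟨h1, _, _⟩ | ⟨h1, _⟩
    · exact h.sub _ h1
    · rw [h1]
      exact Finset.singleton_subset_iff.mpr hx
  have heq : ∀ x ∈ X, ∀ y ∈ M x, M y = M x := by
    intro x hx y hy
    rcases hM x hx with ⟨h1, h2, h3⟩ | ⟨h1, _⟩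
    · rcases hM y (hsub x hx hy) with ⟨h4, h5, h6⟩ | ⟨_, h4⟩
      · apply Finset.Subset.antisymm
        · have h7 := h6 (M x) h1 hy
          exact h3 (M y) h4 (h7 h2)
        · exact h6 (M x) h1 hy
      · exact absurd hy (h4 (M x) h1)
    · rw [h1, Finset.mem_singleton] at hy
      rw [hy]
  refine ⟨X.image M, ?_, ?_, ?_, ?_, ?_, ?_⟩
  · intro c hc
    obtain ⟨x, _, rfl⟩ := Finset.mem_image.mp hc
    exact ⟨x, hself x⟩
  · intro c hc
    obtain ⟨x, hx, rfl⟩ := Finset.mem_image.mp hc
    exact hsub x hx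
  · intro c hc c' hc' hne
    obtain ⟨x, hx, rfl⟩ := Finset.mem_image.mp hc
    obtain ⟨x', hx', rfl⟩ := Finset.mem_image.mp hc'
    rw [Finset.disjoint_left]
    intro y hy hy'
    exact hne ((heq x hx y hy).symm.trans (heq x' hx' y hy'))
  · intro x hx
    exact ⟨M x, Finset.mem_image_of_mem _ hx, hself x⟩
  · intro c hc L' hL'
    obtain ⟨x, hx, rfl⟩ := Finset.mem_image.mp hc
    refine ⟨fun S hS => ((hL' S).mp hS).2.subset, ?_, ?_⟩
    · intro S hS S' hS'
      exact h.lam S ((hL' S).mp hS).1 S' ((hL' S').mp hS').1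
    · intro y hy
      rcases hM x hx with ⟨h1, h2, h3⟩ | ⟨h1, h2⟩
      · have hyX := hsub x hx hy
        have hd := h.depth y hyX
        have hfin : {S : Finset α | S ∈ L ∧ y ∈ S}.Finite :=
          L.finite_toSet.subset fun S hS => hS.1
        have hsub2 : insert (M x) {S : Finset α | S ∈ L' ∧ y ∈ S} ⊆
            {S : Finset α | S ∈ L ∧ y ∈ S} := by
          intro S hS
          rcases hS with hS | hS
          · rw [hS]
            exact ⟨h1, hy⟩
          · exact ⟨((hL' S).mp hS.1).1, hS.2⟩
        have hfin' : {S : Finset α | S ∈ L' ∧ y ∈ S}.Finite :=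
          L'.finite_toSet.subset fun S hS => hS.1
        have hnot : M x ∉ {S : Finset α | S ∈ L' ∧ y ∈ S} := by
          intro hS
          exact ((hL' _).mp hS.1).2.ne rfl
        have h4 := Set.ncard_le_ncard hsub2 hfin
        rw [Set.ncard_insert_of_notMem hnot hfin'] at h4
        omega
      · have : {S : Finset α | S ∈ L' ∧ y ∈ S} = ∅ := by
          ext S
          simp only [Set.mem_ofPred_eq, Set.mem_empty_iff_false, iff_false, not_and]
          intro hS hyS
          rw [h1, Finset.mem_singleton] at hy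
          rw [hy] at hyS
          exact h2 S ((hL' S).mp hS).1 hyS
        rw [this, Set.ncard_empty]
        exact Nat.zero_le _
  · intro S hS hne
    obtain ⟨x, hx⟩ := hne
    have hxX := h.sub S hS hx
    refine ⟨M x, Finset.mem_image_of_mem _ hxX, ?_⟩
    rcases hM x hxX with ⟨_, _, h3⟩ | ⟨_, h3⟩
    · exact h3 S hS hx
    · exact absurd hx (h3 S hS)

end Pool.Agent.R489.SQ
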