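import Pool.Agent.R489.SQ.Stm

/-! From bounded weak colouring numbers and nested families to square colourings. -/

set_option autoImplicit false

open Finset

namespace Pool.Agent.R489.SQ

section

variable {V : Type} {G : SimpleGraph V} {K : ℕ}

/-- In a short walk some vertex has a unique colour. -/
theorem unique_colour (ρ : V → ℕ) (f : V → Fin K)
    (hf : ∀ u v, u ≠ v → WR G ρ 12 v u → f u ≠ f v) {a b : V} (p : G.Walk a b)
    (hp : p.length ≤ 6) : ∃ u ∈ p.support, ∀ x ∈ p.support, x ≠ u → f x ≠ f u := by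
  classical
  obtain ⟨u, hu, hmin⟩ := Finset.exists_min_image p.support.toFinset ρ
    ⟨a, List.mem_toFinset.mpr p.start_mem_support⟩
  rw [List.mem_toFinset] at hu
  refine ⟨u, hu, fun x hx hxu => ?_⟩
  have hw : WR G ρ 12 x u := by
    refine ⟨(p.takeUntil x hx).reverse.append (p.takeUntil u hu), ?_, ?_⟩
    · rw [SimpleGraph.Walk.length_append, SimpleGraph.Walk.length_reverse]
      have h1 := p.length_takeUntil_le hx
      have h2 := p.length_takeUntil_le hu
      omega
    · intro y hy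
      rw [SimpleGraph.Walk.mem_support_append_iff, SimpleGraph.Walk.support_reverse,
        List.mem_reverse] at hy
      apply hmin
      rw [List.mem_toFinset]
      rcases hy with hy | hy
      · exact p.support_takeUntil_subset hx hy
      · exact p.support_takeUntil_subset hu hy
  exact fun h => hf u x (Ne.symm hxu) hw h.symm

/-- `v` is a centre for the colour class `α`. -/
def Centre (G : SimpleGraph V) (f : V → Fin K) (v : V) (α : Fin K) : Prop :=
  ∃ w1 w2, w1 ≠ w2 ∧ G.Adj v w1 ∧ G.Adj v w2 ∧ f w1 = α ∧ f w2 = α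

theorem proper_of (ρ : V → ℕ) (f : V → Fin K)
    (hf : ∀ u v, u ≠ v → WR G ρ 12 v u → f u ≠ f v) (u w : V) (h : G.Adj u w) : f u ≠ f w := by
  obtain ⟨x, hx, hux⟩ := unique_colour ρ f hf (SimpleGraph.Walk.cons h SimpleGraph.Walk.nil)
    (by simp)
  simp only [SimpleGraph.Walk.support_cons, SimpleGraph.Walk.support_nil, List.mem_cons,
    List.not_mem_nil, or_false] at hx hux
  have hne := h.ne
  rcases hx with hx | hx
  · rw [hx] at hux
    exact (hux w (Or.inr rfl) (Ne.symm hne)).symm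
  · rw [hx] at hux
    exact hux u (Or.inl rfl) hne

theorem centre_unique (ρ : V → ℕ) (f : V → Fin K)
    (hf : ∀ u v, u ≠ v → WR G ρ 12 v u → f u ≠ f v) (v w v' : V) (hv : Centre G f v (f w))
    (h1 : G.Adj v w) (h2 : G.Adj v' w) (h3 : f v' = f v) : v' = v := by
  by_contra hne
  have hw2 : ∃ w2, w2 ≠ w ∧ G.Adj v w2 ∧ f w2 = f w := by
    obtain ⟨x, y, hxy, hx, hy, hfx, hfy⟩ := hv
    by_cases h : x = w
    · refine ⟨y, ?_, hy, hfy⟩
      rw [← h]
      exact Ne.symm hxy
    · exact ⟨x, h, hx, hfx⟩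
  obtain ⟨w2, hw2ne, hw2a, hw2f⟩ := hw2
  obtain ⟨x, hx, hux⟩ := unique_colour ρ f hf (SimpleGraph.Walk.cons hw2a.symm
    (SimpleGraph.Walk.cons h1 (SimpleGraph.Walk.cons h2.symm SimpleGraph.Walk.nil))) (by simp)
  simp only [SimpleGraph.Walk.support_cons, SimpleGraph.Walk.support_nil, List.mem_cons,
    List.not_mem_nil, or_false] at hx hux
  rcases hx with rfl | rfl | rfl | rfl
  · exact hux w (by tauto) (Ne.symm hw2ne) hw2f.symm
  · exact hux v' (by tauto) hne h3
  · exact hux w2 (by tauto) hw2ne hw2f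
  · exact hux v (by tauto) (Ne.symm hne) h3.symm

/-- The set of colours of the centres around `w`. -/
def InJ (G : SimpleGraph V) (f : V → Fin K) (w : V) (β : Fin K) : Prop :=
  ∃ v, G.Adj v w ∧ f v = β ∧ Centre G f v (f w)

theorem no_crossing (ρ : V → ℕ) (f : V → Fin K)
    (hf : ∀ u v, u ≠ v → WR G ρ 12 v u → f u ≠ f v) (u v w w' w'' : V) (α : Fin K)
    (hw : f w = α) (hw' : f w' = α) (hw'' : f w'' = α)
    (hJ' : ∀ β, InJ G f w β → InJ G f w' β) (hJ'' : ∀ β, InJ G f w β → InJ G f w'' β)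
    (hu : Centre G f u α) (hv : Centre G f v α)
    (h1 : G.Adj u w) (h2 : G.Adj v w) (h3 : G.Adj u w') (h4 : ¬ G.Adj v w')
    (h5 : G.Adj v w'') (h6 : ¬ G.Adj u w'') : False := by
  have hwv : InJ G f w (f v) := ⟨v, h2, rfl, by rw [hw]; exact hv⟩
  have hwu : InJ G f w (f u) := ⟨u, h1, rfl, by rw [hw]; exact hu⟩
  obtain ⟨v', a1, a2, _⟩ := hJ' _ hwv
  obtain ⟨u'', b1, b2, _⟩ := hJ'' _ hwu
  have e1 : v' ≠ v := fun h => h4 (h ▸ a1)
  have e2 : u'' ≠ u := fun h => h6 (h ▸ b1)
  have e3 : w' ≠ w := fun h => h4 (h ▸ h2)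
  have e4 : w'' ≠ w := fun h => h6 (h ▸ h1)
  obtain ⟨x, hx, hux⟩ := unique_colour ρ f hf (SimpleGraph.Walk.cons a1
    (SimpleGraph.Walk.cons h3.symm (SimpleGraph.Walk.cons h1 (SimpleGraph.Walk.cons h2.symm
    (SimpleGraph.Walk.cons h5 (SimpleGraph.Walk.cons b1.symm SimpleGraph.Walk.nil)))))) (by simp)
  simp only [SimpleGraph.Walk.support_cons, SimpleGraph.Walk.support_nil, List.mem_cons,
    List.not_mem_nil, or_false] at hx hux
  rcases hx with rfl | rfl | rfl | rfl | rfl | rfl | rfl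
  · exact hux v (by tauto) (Ne.symm e1) a2.symm
  · exact hux w (by tauto) (Ne.symm e3) (hw.trans hw'.symm)
  · exact hux u'' (by tauto) e2 b2
  · exact hux w' (by tauto) e3 (hw'.trans hw.symm)
  · exact hux v' (by tauto) e1 a2
  · exact hux w (by tauto) (Ne.symm e4) (hw.trans hw''.symm)
  · exact hux u (by tauto) (Ne.symm e2) b2.symm

end

theorem square_of_small {V : Type} [Finite V] (s : Set V) (h : s.Subsingleton) :
    IsSquare s.ncard := by
  rcases h.eq_empty_or_singleton with h | ⟨x, h⟩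
  · rw [h, Set.ncard_empty]
    exact ⟨0, rfl⟩
  · rw [h, Set.ncard_singleton]
    exact ⟨1, rfl⟩

theorem final_of (hW : ∀ t r : ℕ, ∃ K : ℕ, ∀ (V : Type) [Finite V] (G : SimpleGraph V),
    ¬ IsMinor (⊤ : SimpleGraph (Fin t)) G →
    ∃ (ρ : V → ℕ) (f : V → Fin K), Function.Injective ρ ∧
      ∀ u v, u ≠ v → WR G ρ r v u → f u ≠ f v) (hN : StmtN) : StmtFinal := by
  classical
  intro t
  obtain ⟨K, hK⟩ := hW t 12
  obtain ⟨m, hm⟩ := hN K
  refine ⟨Fintype.card (Fin K × Finset (Fin K) × Fin m), ?_⟩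
  intro V _ G hG
  have : Fintype V := Fintype.ofFinite V
  obtain ⟨ρ, f, _, hf⟩ := hK V G hG
  let J : V → Finset (Fin K) := fun w => univ.filter fun β => InJ G f w β
  have hJ : ∀ w β, β ∈ J w ↔ InJ G f w β := by
    intro w β
    show β ∈ univ.filter (fun β => InJ G f w β) ↔ _
    simp
  let W : Fin K → Finset (Fin K) → Finset V := fun α I => univ.filter fun w => f w = α ∧ J w = I
  have hW' : ∀ α I w, w ∈ W α I ↔ f w = α ∧ J w = I := by
    intro α I w
    show w ∈ univ.filter (fun w => f w = α ∧ J w = I) ↔ _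
    simp
  let S : Fin K → Finset (Fin K) → V → Finset V := fun α I v => (W α I).filter fun w => G.Adj v w
  have hS : ∀ α I v w, w ∈ S α I v ↔ (f w = α ∧ J w = I) ∧ G.Adj v w := by
    intro α I v w
    show w ∈ (W α I).filter (fun w => G.Adj v w) ↔ _
    rw [mem_filter, hW']
  let L : Fin K → Finset (Fin K) → Finset (Finset V) := fun α I =>
    (univ.filter fun v => Centre G f v α).image (S α I)
  have hL : ∀ α I T, T ∈ L α I ↔ ∃ v, Centre G f v α ∧ S α I v = T := by
    intro α I T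
    show T ∈ (univ.filter fun v => Centre G f v α).image (S α I) ↔ _
    rw [mem_image]
    simp
  have hLam : ∀ α I, Lam K (W α I) (L α I) := by
    intro α I
    refine ⟨?_, ?_, ?_⟩
    · intro T hT
      obtain ⟨v, _, rfl⟩ := (hL α I T).mp hT
      exact filter_subset _ _
    · intro T hT T' hT'
      obtain ⟨u, hu, rfl⟩ := (hL α I T).mp hT
      obtain ⟨v, hv, rfl⟩ := (hL α I T').mp hT'
      by_contra hcon
      push Not at hcon
      obtain ⟨c1, c2, c3⟩ := hcon
      obtain ⟨w', hw', hw'n⟩ := Finset.not_subset.mp c1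
      obtain ⟨w'', hw'', hw''n⟩ := Finset.not_subset.mp c2
      obtain ⟨w, hw1, hw2⟩ := Finset.not_disjoint_iff.mp c3
      rw [hS] at hw' hw'' hw1 hw2 hw'n hw''n
      apply no_crossing ρ f hf u v w w' w'' α hw1.1.1 hw'.1.1 hw''.1.1 _ _ hu hv hw1.2 hw2.2
        hw'.2 _ hw''.2 _
      · intro β hβ
        rw [← hJ, hw'.1.2, ← hw1.1.2, hJ]
        exact hβ
      · intro β hβ
        rw [← hJ, hw''.1.2, ← hw1.1.2, hJ]
        exact hβ
      · intro h
        exact hw'n ⟨hw'.1, h⟩
      · intro h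
        exact hw''n ⟨hw''.1, h⟩
    · intro x hx
      rw [hW'] at hx
      have hch : ∀ T : Finset V, ∃ v, (T ∈ L α I ∧ x ∈ T) →
          (Centre G f v α ∧ S α I v = T ∧ G.Adj v x) := by
        intro T
        by_cases h : T ∈ L α I ∧ x ∈ T
        · obtain ⟨v, hv, hvT⟩ := (hL α I T).mp h.1
          refine ⟨v, fun _ => ⟨hv, hvT, ?_⟩⟩
          have h2 := h.2
          rw [← hvT, hS] at h2
          exact h2.2
        · exact ⟨x, fun h' => absurd h' h⟩
      choose c hc using hch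
      have hinj : Set.InjOn (fun T => f (c T)) {T : Finset V | T ∈ L α I ∧ x ∈ T} := by
        intro T hT T' hT' hTT
        obtain ⟨a1, a2, a3⟩ := hc T hT
        obtain ⟨b1, b2, b3⟩ := hc T' hT'
        have : c T' = c T := by
          apply centre_unique ρ f hf (c T) x (c T') _ a3 b3 hTT.symm
          rw [hx.1]
          exact a1
        rw [← a2, ← b2, this]
      calc {T : Finset V | T ∈ L α I ∧ x ∈ T}.ncard
          = ((fun T => f (c T)) '' {T : Finset V | T ∈ L α I ∧ x ∈ T}).ncard :=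
            (Set.ncard_image_of_injOn hinj).symm
        _ ≤ (Set.univ : Set (Fin K)).ncard := Set.ncard_le_ncard (Set.subset_univ _)
        _ = K := by rw [Set.ncard_univ, Nat.card_eq_fintype_card, Fintype.card_fin]
  have hg : ∀ α I, ∃ g : V → Fin m, (∀ T ∈ L α I, ∀ i, IsSquare {x | x ∈ T ∧ g x = i}.ncard) ∧
      ∀ i, IsSquare {x | x ∈ W α I ∧ g x = i}.ncard := fun α I => hm V _ _ (hLam α I)
  choose g hg using hg
  let e := Fintype.equivFin (Fin K × Finset (Fin K) × Fin m)
  refine ⟨fun w => e (f w, J w, g (f w) (J w) w), ?_, ?_⟩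
  · intro u w huw h
    have h1 := e.injective h
    exact proper_of ρ f hf u w huw (congrArg Prod.fst h1)
  · intro v i
    obtain ⟨⟨α, I, j⟩, rfl⟩ := e.surjective i
    have hset : {w | G.Adj v w ∧ e (f w, J w, g (f w) (J w) w) = e (α, I, j)} =
        {w | w ∈ S α I v ∧ g α I w = j} := by
      ext w
      simp only [Set.mem_ofPred_eq, hS]
      constructor
      · rintro ⟨h1, h2⟩
        have h3 := e.injective h2
        simp only [Prod.mk.injEq] at h3
        obtain ⟨h4, h5, h6⟩ := h3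
        rw [h4, h5] at h6
        exact ⟨⟨⟨h4, h5⟩, h1⟩, h6⟩
      · rintro ⟨⟨⟨h4, h5⟩, h1⟩, h6⟩
        refine ⟨h1, ?_⟩
        rw [h4, h5, h6]
    rw [hset]
    by_cases hc : Centre G f v α
    · exact (hg α I).1 _ ((hL α I _).mpr ⟨v, hc, rfl⟩) j
    · apply square_of_small
      rintro x ⟨hx, _⟩ y ⟨hy, _⟩
      rw [hS] at hx hy
      by_contra hne
      exact hc ⟨x, y, hne, hx.2, hy.2, hx.1.1, hy.1.1⟩

end Pool.Agent.R489.SQ
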