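import Pool.Agent.R489.SQ.Children
import Pool.Agent.R489.SQ.Arith2

/-! Square colourings of laminar families of bounded depth. -/

set_option autoImplicit false

open Finset

namespace Pool.Agent.R489.SQ

/-- The conclusion of SQ-N2. -/
def Targets : Prop := ∀ k : ℕ, ∃ E : ℕ, 1 ≤ E ∧ ∀ (α : Type) (X : Finset α)
  (L : Finset (Finset α)) (n : ℕ), Lam k X L → X.Nonempty → IsSquare n →
    n ≤ max 1 (X.card / E) → ∃ Y : Finset α, Y ⊆ X ∧ Y.card = n ∧
      ∀ S ∈ L, IsSquare {x | x ∈ S ∧ x ∈ Y}.ncard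

theorem ncard_filter {α : Type} (S : Finset α) (p : α → Prop) [DecidablePred p] :
    {x | x ∈ S ∧ p x}.ncard = (S.filter p).card := by
  rw [← Set.ncard_coe_finset]
  congr 1
  ext x
  simp

/-- Admissible data on a child: `y` points carry the special colour and `n i` points the colour `i`
of the own palette. -/
def PosD {α : Type} (m : ℕ) (L : Finset (Finset α)) (c : Finset α) (y : ℕ) (n : Fin m → ℕ) : Prop :=
  ∃ (Y : Finset α) (g : α → Fin m), Y ⊆ c ∧ Y.card = y ∧ IsSquare y ∧
    (∀ S ∈ L, S ⊂ c → IsSquare {x | x ∈ S ∧ x ∈ Y}.ncard) ∧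
    (∀ S ∈ L, S ⊂ c → ∀ i, IsSquare {x | x ∈ S ∧ (x ∉ Y ∧ g x = i)}.ncard) ∧
    (∀ i, {x | x ∈ c ∧ (x ∉ Y ∧ g x = i)}.ncard = n i) ∧ ∀ i, IsSquare (n i)

theorem posD_exists {α : Type} (k m E : ℕ) (L : Finset (Finset α)) (c : Finset α)
    (hc : ∀ L' : Finset (Finset α), (∀ S, S ∈ L' ↔ S ∈ L ∧ S ⊂ c) → Lam k c L')
    (hcne : c.Nonempty)
    (hE : ∀ (X : Finset α) (L : Finset (Finset α)) (n : ℕ), Lam k X L → X.Nonempty →
      IsSquare n → n ≤ max 1 (X.card / E) → ∃ Y : Finset α, Y ⊆ X ∧ Y.card = n ∧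
      ∀ S ∈ L, IsSquare {x | x ∈ S ∧ x ∈ Y}.ncard)
    (hm : ∀ (X : Finset α) (L : Finset (Finset α)), Lam k X L → ∃ g : α → Fin m,
      (∀ S ∈ L, ∀ i, IsSquare {x | x ∈ S ∧ g x = i}.ncard) ∧
      ∀ i, IsSquare {x | x ∈ X ∧ g x = i}.ncard)
    (y : ℕ) (hy : IsSquare y) (hyc : y ≤ max 1 (c.card / E)) : ∃ n, PosD m L c y n := by
  classical
  have hL := hc (L.filter fun S => S ⊂ c) (fun S => by rw [mem_filter])
  obtain ⟨Y, hY, hYc, hYS⟩ := hE c _ y hL hcne hy hyc
  have hL2 : Lam k (c \ Y) ((L.filter fun S => S ⊂ c).image fun S => S \ Y) := by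
    refine ⟨?_, ?_, ?_⟩
    · intro S hS
      obtain ⟨S', hS', rfl⟩ := mem_image.mp hS
      exact sdiff_subset_sdiff (hL.sub S' hS') (Subset.refl _)
    · intro S hS S' hS'
      obtain ⟨T, hT, rfl⟩ := mem_image.mp hS
      obtain ⟨T', hT', rfl⟩ := mem_image.mp hS'
      rcases hL.lam T hT T' hT' with h | h | h
      · exact Or.inl (sdiff_subset_sdiff h (Subset.refl _))
      · exact Or.inr (Or.inl (sdiff_subset_sdiff h (Subset.refl _)))
      · exact Or.inr (Or.inr (h.mono sdiff_subset sdiff_subset))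
    · intro x hx
      rw [mem_sdiff] at hx
      have h1 := hL.depth x hx.1
      have hfin : {S : Finset α | S ∈ (L.filter fun S => S ⊂ c) ∧ x ∈ S}.Finite :=
        (L.filter fun S => S ⊂ c).finite_toSet.subset fun S hS => hS.1
      refine le_trans ?_ h1
      have h2 : {S : Finset α | S ∈ ((L.filter fun S => S ⊂ c).image fun S => S \ Y) ∧ x ∈ S} ⊆
          (fun S => S \ Y) '' {S : Finset α | S ∈ (L.filter fun S => S ⊂ c) ∧ x ∈ S} := by
        rintro S ⟨hS, hxS⟩
        obtain ⟨S', hS', rfl⟩ := mem_image.mp hS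
        exact ⟨S', ⟨hS', (mem_sdiff.mp hxS).1⟩, rfl⟩
      exact (Set.ncard_le_ncard h2 (hfin.image _)).trans (Set.ncard_image_le hfin)
  obtain ⟨g, hg1, hg2⟩ := hm _ _ hL2
  have hset : ∀ (S : Finset α) (i : Fin m), {x | x ∈ S ∧ (x ∉ Y ∧ g x = i)} =
      {x | x ∈ S \ Y ∧ g x = i} := by
    intro S i
    ext x
    simp only [Set.mem_ofPred_eq, mem_sdiff]
    tauto
  refine ⟨fun i => {x | x ∈ c \ Y ∧ g x = i}.ncard, Y, g, hY, hYc, hy, ?_, ?_, ?_, ?_⟩
  · intro S hS hSc
    exact hYS S (mem_filter.mpr ⟨hS, hSc⟩)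
  · intro S hS hSc i
    rw [hset]
    exact hg1 _ (mem_image_of_mem _ (mem_filter.mpr ⟨hS, hSc⟩)) i
  · intro i
    rw [hset]
  · intro i
    exact hg2 i

theorem posD_card {α : Type} (m : ℕ) (L : Finset (Finset α)) (c : Finset α) (y : ℕ)
    (n : Fin m → ℕ) (h : PosD m L c y n) : y + ∑ i, n i = c.card := by
  classical
  obtain ⟨Y, g, hY, hYc, _, _, _, h4, _⟩ := h
  have h1 : ∑ i, n i = (c \ Y).card := by
    rw [Finset.card_eq_sum_card_fiberwise (f := g) (t := univ) (fun _ _ => mem_coe.mpr (mem_univ _))]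
    apply sum_congr rfl
    intro i _
    rw [← h4 i, ncard_filter c (fun x => x ∉ Y ∧ g x = i)]
    congr 1
    ext x
    simp only [mem_filter, mem_sdiff]
    tauto
  rw [h1, ← hYc, card_sdiff_of_subset hY]
  have := card_le_card hY
  omega

theorem count_split {α P : Type} [DecidableEq P] (m : ℕ) (S Y : Finset α) (g : α → Fin m)
    (pal : Fin m → P) (t : P) (G : α → P) (hpal : Function.Injective pal) (ht : ∀ i, pal i ≠ t)
    (hG1 : ∀ x ∈ S, x ∈ Y → G x = t) (hG2 : ∀ x ∈ S, x ∉ Y → G x = pal (g x)) (p : P) :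
    {x | x ∈ S ∧ G x = p}.ncard =
      (∑ i, if pal i = p then {x | x ∈ S ∧ (x ∉ Y ∧ g x = i)}.ncard else 0) +
        if t = p then {x | x ∈ S ∧ x ∈ Y}.ncard else 0 := by
  by_cases h1 : t = p
  · rw [if_pos h1]
    have h2 : (∑ i, if pal i = p then {x | x ∈ S ∧ (x ∉ Y ∧ g x = i)}.ncard else 0) = 0 := by
      apply sum_eq_zero
      intro i _
      rw [if_neg]
      rw [← h1]
      exact ht i
    rw [h2, zero_add]
    congr 1
    ext x
    simp only [Set.mem_ofPred_eq]
    constructor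
    · rintro ⟨hx, hxp⟩
      refine ⟨hx, ?_⟩
      by_contra hxY
      rw [hG2 x hx hxY, ← h1] at hxp
      exact ht _ hxp
    · rintro ⟨hx, hxY⟩
      exact ⟨hx, by rw [hG1 x hx hxY, h1]⟩
  · rw [if_neg h1, add_zero]
    by_cases h2 : ∃ i, pal i = p
    · obtain ⟨i, hi⟩ := h2
      rw [sum_eq_single i]
      · rw [if_pos hi]
        congr 1
        ext x
        simp only [Set.mem_ofPred_eq]
        constructor
        · rintro ⟨hx, hxp⟩
          have hxY : x ∉ Y := by
            intro hxY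
            rw [hG1 x hx hxY] at hxp
            exact h1 hxp
          refine ⟨hx, hxY, ?_⟩
          rw [hG2 x hx hxY, ← hi] at hxp
          exact hpal hxp
        · rintro ⟨hx, hxY, hxg⟩
          exact ⟨hx, by rw [hG2 x hx hxY, hxg, hi]⟩
      · intro j _ hj
        rw [if_neg]
        intro h
        exact hj (hpal (h.trans hi.symm))
      · intro h
        exact absurd (mem_univ i) h
    · push Not at h2
      rw [sum_eq_zero fun i _ => if_neg (h2 i)]
      have : {x | x ∈ S ∧ G x = p} = ∅ := by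
        ext x
        simp only [Set.mem_ofPred_eq, Set.mem_empty_iff_false, iff_false, not_and]
        intro hx hxp
        by_cases hxY : x ∈ Y
        · rw [hG1 x hx hxY] at hxp
          exact h1 hxp
        · rw [hG2 x hx hxY] at hxp
          exact h2 _ hxp
      rw [this, Set.ncard_empty]

theorem count_square {α P : Type} [DecidableEq P] (m : ℕ) (S Y : Finset α) (g : α → Fin m)
    (pal : Fin m → P) (t : P) (G : α → P) (hpal : Function.Injective pal) (ht : ∀ i, pal i ≠ t)
    (hG1 : ∀ x ∈ S, x ∈ Y → G x = t) (hG2 : ∀ x ∈ S, x ∉ Y → G x = pal (g x)) (p : P)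
    (hs1 : IsSquare {x | x ∈ S ∧ x ∈ Y}.ncard)
    (hs2 : ∀ i, IsSquare {x | x ∈ S ∧ (x ∉ Y ∧ g x = i)}.ncard) :
    IsSquare {x | x ∈ S ∧ G x = p}.ncard := by
  rw [count_split m S Y g pal t G hpal ht hG1 hG2 p]
  by_cases h1 : t = p
  · rw [if_pos h1, sum_eq_zero, zero_add]
    · exact hs1
    · intro i _
      rw [if_neg]
      rw [← h1]
      exact ht i
  · rw [if_neg h1, add_zero]
    by_cases h2 : ∃ i, pal i = p
    · obtain ⟨i, hi⟩ := h2
      rw [sum_eq_single i]
      · rw [if_pos hi]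
        exact hs2 i
      · intro j _ hj
        rw [if_neg]
        intro h
        exact hj (hpal (h.trans hi.symm))
      · intro h
        exact absurd (mem_univ i) h
    · push Not at h2
      rw [sum_eq_zero fun i _ => if_neg (h2 i)]
      exact ⟨0, rfl⟩

theorem nested_base (α : Type) (X : Finset α) (L : Finset (Finset α)) (h : Lam 0 X L) :
    ∃ g : α → Fin 4, (∀ S ∈ L, ∀ i, IsSquare {x | x ∈ S ∧ g x = i}.ncard) ∧
    ∀ i, IsSquare {x | x ∈ X ∧ g x = i}.ncard := by
  classical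
  obtain ⟨a, b, c, d, habcd⟩ := Nat.sum_four_squares X.card
  have hsum : ∑ i, (![a, b, c, d] : Fin 4 → ℕ) i ^ 2 = X.card := by
    rw [Fin.sum_univ_four]
    exact habcd
  obtain ⟨g, hg⟩ := exists_assign X (fun i => (![a, b, c, d] : Fin 4 → ℕ) i ^ 2) hsum
  refine ⟨g, ?_, ?_⟩
  · intro S hS i
    have hemp : S = ∅ := by
      rw [← not_nonempty_iff_eq_empty]
      rintro ⟨x, hx⟩
      have h1 := h.depth x (h.sub S hS hx)
      have hfin : {S : Finset α | S ∈ L ∧ x ∈ S}.Finite :=
        L.finite_toSet.subset fun S hS => hS.1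
      rw [Nat.le_zero, Set.ncard_eq_zero hfin] at h1
      have : S ∈ {S : Finset α | S ∈ L ∧ x ∈ S} := ⟨hS, hx⟩
      rw [h1] at this
      exact this
    have h0 : {x | x ∈ S ∧ g x = i} = ∅ := by
      rw [hemp]
      ext x
      simp
    rw [h0, Set.ncard_empty]
    exact ⟨0, rfl⟩
  · intro i
    rw [ncard_filter, hg i]
    exact ⟨_, pow_two _⟩

theorem nested (hT : Targets) : ∀ k : ℕ, ∃ m : ℕ, 1 ≤ m ∧ ∀ (α : Type) (X : Finset α)
    (L : Finset (Finset α)), Lam k X L → ∃ g : α → Fin m,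
    (∀ S ∈ L, ∀ i, IsSquare {x | x ∈ S ∧ g x = i}.ncard) ∧
    ∀ i, IsSquare {x | x ∈ X ∧ g x = i}.ncard := by
  classical
  intro k
  induction k with
  | zero => exact ⟨4, by norm_num, nested_base⟩
  | succ k ih =>
    obtain ⟨m, hm1, hm⟩ := ih
    obtain ⟨E, hE1, hE⟩ := hT k
    refine ⟨Fintype.card (Pal m (RR m E)), ?_, ?_⟩
    · apply Fintype.card_pos_iff.mpr
      exact ⟨Sum.inr (Sum.inr (0, 0))⟩
    · intro α X L hL
      obtain ⟨C, hC⟩ := exists_kids k X L hL
      obtain ⟨pal, t, n, y, h1, h2, h3, h4⟩ := arith m E hm1 hE1 (Finset α) C Finset.card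
        (PosD m L) (fun c hc => card_pos.mpr (hC.ne c hc))
        (fun c hc y hy hyc => posD_exists k m E L c (hC.lam c hc) (hC.ne c hc) (hE α) (hm α)
          y hy hyc)
        (fun c hc y n h => ⟨by obtain ⟨_, _, _, _, _, _, _, _, h⟩ := h; exact h,
          posD_card m L c y n h⟩)
      have h1' : ∀ c, ∃ (Y : Finset α) (g : α → Fin m), c ∈ C → Y ⊆ c ∧ Y.card = y c ∧
          IsSquare (y c) ∧ (∀ S ∈ L, S ⊂ c → IsSquare {x | x ∈ S ∧ x ∈ Y}.ncard) ∧
          (∀ S ∈ L, S ⊂ c → ∀ i, IsSquare {x | x ∈ S ∧ (x ∉ Y ∧ g x = i)}.ncard) ∧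
          (∀ i, {x | x ∈ c ∧ (x ∉ Y ∧ g x = i)}.ncard = n c i) ∧ ∀ i, IsSquare (n c i) := by
        intro c
        by_cases hc : c ∈ C
        · obtain ⟨Y, g, h⟩ := h1 c hc
          exact ⟨Y, g, fun _ => h⟩
        · exact ⟨∅, fun _ => ⟨0, hm1⟩, fun h => absurd h hc⟩
      choose Y g hYg using h1'
      have hkid : ∀ x, ∃ c, x ∈ X → c ∈ C ∧ x ∈ c := by
        intro x
        by_cases hx : x ∈ X
        · obtain ⟨c, hc⟩ := hC.cover x hx
          exact ⟨c, fun _ => hc⟩
        · exact ⟨∅, fun h => absurd h hx⟩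
      choose κ hκ using hkid
      have hκ' : ∀ c ∈ C, ∀ x ∈ c, κ x = c := by
        intro c hc x hx
        by_contra hne
        obtain ⟨k1, k2⟩ := hκ x (hC.sub c hc hx)
        exact Finset.disjoint_left.mp (hC.disj _ k1 c hc hne) k2 hx
      let G : α → Pal m (RR m E) := fun x =>
        if x ∈ Y (κ x) then t (κ x) else pal (κ x) (g (κ x) x)
      have hG1 : ∀ c ∈ C, ∀ x ∈ c, x ∈ Y c → G x = t c := by
        intro c hc x hx hxY
        have hk := hκ' c hc x hx
        show (if x ∈ Y (κ x) then t (κ x) else pal (κ x) (g (κ x) x)) = t c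
        rw [hk, if_pos hxY]
      have hG2 : ∀ c ∈ C, ∀ x ∈ c, x ∉ Y c → G x = pal c (g c x) := by
        intro c hc x hx hxY
        have hk := hκ' c hc x hx
        show (if x ∈ Y (κ x) then t (κ x) else pal (κ x) (g (κ x) x)) = pal c (g c x)
        rw [hk, if_neg hxY]
      have hY2 : ∀ c ∈ C, {x | x ∈ c ∧ x ∈ Y c}.ncard = y c := by
        intro c hc
        obtain ⟨k1, k2, _⟩ := hYg c hc
        rw [← k2, ← Set.ncard_coe_finset]
        congr 1
        ext x
        simp only [Set.mem_ofPred_eq, mem_coe]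
        exact ⟨fun h => h.2, fun h => ⟨k1 h, h⟩⟩
      have hS : ∀ S ∈ L, ∀ p, IsSquare {x | x ∈ S ∧ G x = p}.ncard := by
        intro S hS p
        rcases S.eq_empty_or_nonempty with hemp | hne
        · have h0 : {x | x ∈ S ∧ G x = p} = ∅ := by
            rw [hemp]
            ext x
            simp
          rw [h0, Set.ncard_empty]
          exact ⟨0, rfl⟩
        · obtain ⟨c, hc, hSc⟩ := hC.mem S hS hne
          obtain ⟨k1, k2, k3, k4, k5, k6, k7⟩ := hYg c hc
          apply count_square m S (Y c) (g c) (pal c) (t c) G (h2 c hc) (h3 c hc)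
            (fun x hx => hG1 c hc x (hSc hx)) (fun x hx => hG2 c hc x (hSc hx)) p
          · by_cases hSc' : S = c
            · rw [hSc', hY2 c hc]
              exact k3
            · exact k4 S hS (Finset.ssubset_iff_subset_ne.mpr ⟨hSc, hSc'⟩)
          · intro i
            by_cases hSc' : S = c
            · rw [hSc', k6 i]
              exact k7 i
            · exact k5 S hS (Finset.ssubset_iff_subset_ne.mpr ⟨hSc, hSc'⟩) i
      have hX : ∀ p, {x | x ∈ X ∧ G x = p}.ncard = ∑ c ∈ C, contrib pal t n y c p := by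
        intro p
        have e1 : {x | x ∈ X ∧ G x = p}.ncard = ∑ c ∈ C, {x | x ∈ c ∧ G x = p}.ncard := by
          rw [ncard_filter]
          have e2 : X.filter (fun x => G x = p) = C.biUnion fun c => c.filter fun x => G x = p := by
            ext x
            simp only [mem_filter, mem_biUnion]
            constructor
            · rintro ⟨hx, hxp⟩
              obtain ⟨k1, k2⟩ := hκ x hx
              exact ⟨κ x, k1, k2, hxp⟩
            · rintro ⟨c, hc, hx, hxp⟩
              exact ⟨hC.sub c hc hx, hxp⟩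
          rw [e2, card_biUnion]
          · apply sum_congr rfl
            intro c _
            rw [ncard_filter]
          · intro c hc c' hc' hne
            exact (hC.disj c hc c' hc' hne).mono (filter_subset _ _) (filter_subset _ _)
        rw [e1]
        apply sum_congr rfl
        intro c hc
        obtain ⟨k1, k2, k3, k4, k5, k6, k7⟩ := hYg c hc
        rw [count_split m c (Y c) (g c) (pal c) (t c) G (h2 c hc) (h3 c hc)
          (hG1 c hc) (hG2 c hc) p, hY2 c hc]
        unfold contrib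
        congr 1
        apply sum_congr rfl
        intro i _
        rw [k6 i]
      let e := Fintype.equivFin (Pal m (RR m E))
      have hset : ∀ (S : Finset α) (i : Fin (Fintype.card (Pal m (RR m E)))),
          {x | x ∈ S ∧ e (G x) = i} = {x | x ∈ S ∧ G x = e.symm i} := by
        intro S i
        ext x
        simp only [Set.mem_ofPred_eq]
        exact ⟨fun h => ⟨h.1, (Equiv.eq_symm_apply e).mpr h.2⟩, fun h => ⟨h.1, (Equiv.eq_symm_apply e).mp h.2⟩⟩
      refine ⟨fun x => e (G x), ?_, ?_⟩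
      · intro S hSL i
        rw [hset]
        exact hS S hSL _
      · intro i
        rw [hset, hX]
        exact h4 _

theorem stmtN_of (hT : Targets) : StmtN := by
  intro k
  obtain ⟨m, _, hm⟩ := nested hT k
  exact ⟨m, hm⟩

end Pool.Agent.R489.SQ
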